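import Mathlib

/-!
# MP_4d2e3d_co : representability of a q-matroid is not detected by its projectivization

Counterexample: `q = 2`, `m = 3`; the q-matroid on `𝔽₄²` (seen over `𝔽₂`) with
`ρ V = dim_{𝔽₄} ⟨V⟩`.
-/

set_option autoImplicit false

open scoped LinearAlgebra.Projectivization

namespace Pool.Agent.Results.MP_4d2e3d_co.Projectivization

/-- A `q`-matroid on the finite-dimensional `𝔽_q`-vector space `E`. -/
structure QMatroid (F E : Type) [Field F] [AddCommGroup E] [Module F E] where
  /-- the rank function -/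
  ρ : Submodule F E → ℕ
  le_finrank : ∀ V, ρ V ≤ Module.finrank F V
  mono : ∀ U V, U ≤ V → ρ U ≤ ρ V
  submod : ∀ U V, ρ (U ⊔ V) + ρ (U ⊓ V) ≤ ρ U + ρ V

section

variable {F E : Type} [Field F] [AddCommGroup E] [Module F E]

/-- The `q`-matroid `M` is isomorphic to the `q`-matroid of a matrix `G` over the extension field
`K`: `ρ V` is the `K`-rank of `G Y_V`, i.e. the `K`-dimension of the span of the vectors `G y`,
where `y` runs through (the image in `F^n` of) `V`. -/
def QMatroid.Representable (M : QMatroid F E) (K : Type) [Field K] [Algebra F K] : Prop :=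
  ∃ (k n : ℕ) (G : Matrix (Fin k) (Fin n) K) (φ : E ≃ₗ[F] (Fin n → F)),
    ∀ V : Submodule F E, M.ρ V = Module.finrank K (Submodule.span K
      {x : Fin k → K | ∃ v ∈ V, x = G.mulVec (fun i => algebraMap F K (φ v i))})

/-- The projectivization matroid `P(M)`, with rank function `r A = ρ ⟨A⟩` for sets `A` of points
of the projective space of `E`, is isomorphic to the matroid of a matrix `G` over `K`. -/
def QMatroid.ProjRepresentable (M : QMatroid F E) (K : Type) [Field K] : Prop :=
  ∃ (k n : ℕ) (G : Matrix (Fin k) (Fin n) K) (e : ℙ F E ≃ Fin n),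
    ∀ A : Set (ℙ F E), M.ρ (⨆ p ∈ A, p.submodule) =
      Module.finrank K (Submodule.span K {x : Fin k → K | ∃ p ∈ A, x = fun i => G i (e p)})

end

/-! ### points of the projective line -/

/-- the vector of a point of the projective line -/
def w {L K : Type} [Zero K] [One K] (ι : L → K) : Option L → (Fin 2 → K)
  | none => ![0, 1]
  | some a => ![1, ι a]

open Classical in
/-- rank of a set of points of a line -/
noncomputable def rk {L : Type} (A : Set (Option L)) : ℕ :=
  if A = ∅ then 0 else if A.Subsingleton then 1 else 2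

lemma w_ne {L K : Type} [Field K] (ι : L → K) (a : Option L) : w ι a ≠ 0 := by
  cases a with
  | none => intro h; have := congrFun h 1; simp [w] at this
  | some a => intro h; have := congrFun h 0; simp [w] at this

lemma span_pair {K : Type} [Field K] {x y : Fin 2 → K} (h : x 0 * y 1 - x 1 * y 0 ≠ 0) :
    ∀ z : Fin 2 → K, z ∈ Submodule.span K {x, y} := by
  intro z
  rw [Submodule.mem_span_pair]
  refine ⟨(z 0 * y 1 - z 1 * y 0) / (x 0 * y 1 - x 1 * y 0),
    (x 0 * z 1 - x 1 * z 0) / (x 0 * y 1 - x 1 * y 0), ?_⟩
  ext i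
  fin_cases i
  · simp only [Fin.zero_eta, Pi.add_apply, Pi.smul_apply, smul_eq_mul]
    rw [div_mul_eq_mul_div, div_mul_eq_mul_div, ← add_div, div_eq_iff h]
    ring
  · simp only [Fin.mk_one, Pi.add_apply, Pi.smul_apply, smul_eq_mul]
    rw [div_mul_eq_mul_div, div_mul_eq_mul_div, ← add_div, div_eq_iff h]
    ring

lemma finrank_w {L K : Type} [Field K] {ι : L → K} (hι : Function.Injective ι)
    (A : Set (Option L)) : Module.finrank K (Submodule.span K (w ι '' A)) = rk A := by
  unfold rk
  split_ifs with h1 h2
  · subst h1; simp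
  · obtain ⟨a, ha⟩ := Set.nonempty_iff_ne_empty.2 h1
    have hA : A = {a} := h2.eq_singleton_of_mem ha
    rw [hA, Set.image_singleton]
    exact finrank_span_singleton (w_ne ι a)
  · rw [Set.not_subsingleton_iff] at h2
    obtain ⟨a, ha, b, hb, hab⟩ := h2
    have htop : Submodule.span K (w ι '' A) = ⊤ := by
      rw [eq_top_iff]
      rintro z -
      have hsub : ({w ι a, w ι b} : Set (Fin 2 → K)) ⊆ w ι '' A := by
        rintro x (rfl | rfl)
        · exact ⟨a, ha, rfl⟩
        · exact ⟨b, hb, rfl⟩
      refine Submodule.span_mono hsub (span_pair ?_ z)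
      cases a with
      | none =>
        cases b with
        | none => exact absurd rfl hab
        | some b => simp [w]
      | some a =>
        cases b with
        | none => simp [w]
        | some b =>
          simp only [w, Matrix.cons_val_zero, Matrix.cons_val_one, one_mul, mul_one]
          intro h
          apply hab
          rw [hι (sub_eq_zero.1 h).symm]
    rw [htop, finrank_top, Module.finrank_fin_fun]

/-! ### the counterexample -/

abbrev F₂ : Type := ZMod 2
abbrev F₄ : Type := GaloisField 2 2
abbrev F₈ : Type := GaloisField 2 3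
abbrev E₄ : Type := Fin 2 → F₄

noncomputable instance : Fintype F₄ := Fintype.ofFinite _
noncomputable instance : Fintype F₈ := Fintype.ofFinite _

lemma card₄ : Nat.card F₄ = 4 := by
  have := GaloisField.card 2 2 (by norm_num)
  simpa using this

lemma card₈ : Nat.card F₈ = 8 := by
  have := GaloisField.card 2 3 (by norm_num)
  simpa using this

/-- the `q`-matroid `ρ V = dim_{𝔽₄} ⟨V⟩` -/
noncomputable def M₀ : QMatroid F₂ E₄ where
  ρ V := Module.finrank F₄ (Submodule.span F₄ (V : Set E₄))
  le_finrank V := by
    set b := Module.finBasis F₂ V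
    have h : Submodule.span F₄ (V : Set E₄) =
        Submodule.span F₄ (Set.range fun i => (b i : E₄)) := by
      apply le_antisymm
      · rw [Submodule.span_le]
        intro v hv
        have h1 := b.sum_repr ⟨v, hv⟩
        have h2 : v = ∑ i, (b.repr ⟨v, hv⟩ i) • (b i : E₄) := by
          have := congrArg (fun x : V => (x : E₄)) h1
          simp only [Submodule.coe_sum, Submodule.coe_smul] at this
          exact this.symm
        rw [h2]
        apply Submodule.sum_mem
        intro i _
        have h3 : (b.repr ⟨v, hv⟩ i) • (b i : E₄) =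
            (algebraMap F₂ F₄ (b.repr ⟨v, hv⟩ i)) • (b i : E₄) := by
          rw [algebraMap_smul]
        rw [h3]
        exact Submodule.smul_mem _ _ (Submodule.subset_span ⟨i, rfl⟩)
      · apply Submodule.span_mono
        rintro _ ⟨i, rfl⟩
        exact (b i).2
    rw [h]
    refine (finrank_range_le_card _).trans ?_
    rw [Fintype.card_fin]
  mono U V h := Submodule.finrank_mono (Submodule.span_mono h)
  submod U V := by
    have h1 : Submodule.span F₄ ((U ⊔ V : Submodule F₂ E₄) : Set E₄) =
        Submodule.span F₄ (U : Set E₄) ⊔ Submodule.span F₄ (V : Set E₄) := by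
      apply le_antisymm
      · rw [Submodule.span_le]
        intro x hx
        obtain ⟨u, hu, v, hv, rfl⟩ := Submodule.mem_sup.1 hx
        exact Submodule.add_mem_sup (Submodule.subset_span hu) (Submodule.subset_span hv)
      · exact sup_le (Submodule.span_mono (le_sup_left : U ≤ U ⊔ V))
          (Submodule.span_mono (le_sup_right : V ≤ U ⊔ V))
    have h2 : Submodule.span F₄ ((U ⊓ V : Submodule F₂ E₄) : Set E₄) ≤
        Submodule.span F₄ (U : Set E₄) ⊓ Submodule.span F₄ (V : Set E₄) :=
      le_inf (Submodule.span_mono (inf_le_left : U ⊓ V ≤ U))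
        (Submodule.span_mono (inf_le_right : U ⊓ V ≤ V))
    have h3 := Submodule.finrank_mono h2
    have h4 := Submodule.finrank_sup_add_finrank_inf_eq (Submodule.span F₄ (U : Set E₄))
      (Submodule.span F₄ (V : Set E₄))
    rw [h1]
    omega

open Classical in
/-- the point of the projective line over `𝔽₄` of a vector -/
noncomputable def cl (v : E₄) : Option F₄ := if v 0 = 0 then none else some (v 1 / v 0)

lemma cl_spec {v : E₄} (hv : v ≠ 0) : ∃ c : F₄, c ≠ 0 ∧ v = c • w id (cl v) := by
  unfold cl
  split_ifs with h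
  · refine ⟨v 1, ?_, ?_⟩
    · intro h1
      apply hv
      ext i; fin_cases i
      · exact h
      · exact h1
    · ext i; fin_cases i
      · simp [w, h]
      · simp [w]
  · refine ⟨v 0, h, ?_⟩
    ext i; fin_cases i
    · simp [w]
    · simp [w, mul_div_cancel₀ _ h]

lemma span_cl (A : Set (ℙ F₂ E₄)) :
    Submodule.span F₄ ((⨆ p ∈ A, p.submodule : Submodule F₂ E₄) : Set E₄) =
      Submodule.span F₄ (w id '' ((fun p : ℙ F₂ E₄ => cl p.rep) '' A)) := by
  apply le_antisymm
  · rw [Submodule.span_le]
    have h : (⨆ p ∈ A, p.submodule : Submodule F₂ E₄) ≤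
        (Submodule.span F₄ (w id '' ((fun p : ℙ F₂ E₄ => cl p.rep) '' A))).restrictScalars F₂ := by
      refine iSup₂_le fun p hp => ?_
      rw [Projectivization.submodule_eq, Submodule.span_singleton_le_iff_mem]
      obtain ⟨c, -, hc⟩ := cl_spec p.rep_nonzero
      rw [Submodule.restrictScalars_mem, hc]
      exact Submodule.smul_mem _ _ (Submodule.subset_span ⟨_, ⟨p, hp, rfl⟩, rfl⟩)
    exact h
  · rw [Submodule.span_le]
    rintro _ ⟨_, ⟨p, hp, rfl⟩, rfl⟩
    obtain ⟨c, hc0, hc⟩ := cl_spec p.rep_nonzero
    have h1 : w id (cl p.rep) = c⁻¹ • p.rep := by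
      rw [eq_inv_smul_iff₀ hc0]; exact hc.symm
    change w id (cl p.rep) ∈ _
    rw [h1]
    apply Submodule.smul_mem
    apply Submodule.subset_span
    have h2 : p.submodule ≤ ⨆ p ∈ A, p.submodule := le_iSup₂_of_le p hp le_rfl
    apply h2
    rw [Projectivization.submodule_eq]
    exact Submodule.mem_span_singleton_self _

lemma exists_inj : ∃ ι : F₄ → F₈, Function.Injective ι := by
  have h : Fintype.card F₄ ≤ Fintype.card F₈ := by
    rw [← Nat.card_eq_fintype_card, ← Nat.card_eq_fintype_card, card₄, card₈]; norm_num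
  obtain ⟨f⟩ := Function.Embedding.nonempty_of_card_le h
  exact ⟨f, f.injective⟩

lemma projRep : M₀.ProjRepresentable F₈ := by
  obtain ⟨ι, hι⟩ := exists_inj
  refine ⟨2, Nat.card (ℙ F₂ E₄),
    fun i j => w ι (cl ((Finite.equivFin (ℙ F₂ E₄)).symm j).rep) i, Finite.equivFin _, ?_⟩
  intro A
  change Module.finrank F₄ (Submodule.span F₄ _) = _
  rw [span_cl, finrank_w Function.injective_id, ← finrank_w hι]
  have hset : w ι '' ((fun p : ℙ F₂ E₄ => cl p.rep) '' A) = {x : Fin 2 → F₈ | ∃ p ∈ A,
      x = fun i => (fun (i : Fin 2) (j : Fin (Nat.card (ℙ F₂ E₄))) =>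
        w ι (cl ((Finite.equivFin (ℙ F₂ E₄)).symm j).rep) i) i
          ((Finite.equivFin (ℙ F₂ E₄)) p)} := by
    ext x
    constructor
    · rintro ⟨_, ⟨p, hp, rfl⟩, rfl⟩
      exact ⟨p, hp, by simp⟩
    · rintro ⟨p, hp, rfl⟩
      exact ⟨_, ⟨p, hp, rfl⟩, by simp⟩
  rw [hset]

lemma not_rep : ¬ M₀.Representable F₈ := by
  rintro ⟨k, n, G, φ, hG⟩
  set g : E₄ → (Fin k → F₈) := fun v => G.mulVec (fun i => algebraMap F₂ F₈ (φ v i)) with hg
  have gadd : ∀ u v, g (u + v) = g u + g v := by
    intro u v
    simp only [hg, map_add, Pi.add_apply]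
    rw [← Matrix.mulVec_add]
    rfl
  have g0 : g 0 = 0 := by
    have := gadd 0 0
    rw [add_zero] at this
    exact left_eq_add.1 this
  have gsub : ∀ u v, g (u - v) = g u - g v := by
    intro u v
    have := gadd (u - v) v
    rw [sub_add_cancel] at this
    rw [this]; simp
  -- rank one subspaces
  have hone : ∀ v : E₄, v ≠ 0 → M₀.ρ (Submodule.span F₂ {v}) = 1 := by
    intro v hv
    change Module.finrank F₄ (Submodule.span F₄ _) = 1
    have : Submodule.span F₄ ((Submodule.span F₂ {v} : Submodule F₂ E₄) : Set E₄) =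
        Submodule.span F₄ {v} := by
      apply le_antisymm
      · rw [Submodule.span_le]
        intro x hx
        obtain ⟨c, rfl⟩ := Submodule.mem_span_singleton.1 hx
        rw [← algebraMap_smul F₄ c v]
        exact Submodule.smul_mem _ _ (Submodule.mem_span_singleton_self v)
      · exact Submodule.span_mono (by
          intro x hx; rw [Set.mem_singleton_iff.1 hx]; exact Submodule.mem_span_singleton_self v)
    rw [this, finrank_span_singleton hv]
  have ginj : ∀ v, g v = 0 → v = 0 := by
    intro v hv
    by_contra hne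
    have h1 := hone v hne
    rw [hG] at h1
    have h2 : Submodule.span F₈ {x : Fin k → F₈ | ∃ v' ∈ Submodule.span F₂ {v}, x = g v'} = ⊥ := by
      rw [Submodule.span_eq_bot]
      rintro x ⟨v', hv', rfl⟩
      obtain ⟨c, rfl⟩ := Submodule.mem_span_singleton.1 hv'
      have hc : ∀ c : F₂, c = 0 ∨ c = 1 := by decide
      rcases hc c with rfl | rfl
      · rw [zero_smul, g0]
      · rw [one_smul, hv]
    change Module.finrank F₈ (Submodule.span F₈
      {x : Fin k → F₈ | ∃ v' ∈ Submodule.span F₂ {v}, x = g v'}) = 1 at h1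
    rw [h2, finrank_bot] at h1
    exact absurd h1 (by norm_num)
  -- every `g v` lies on one of five lines
  have hline : ∀ v : E₄, ∃ (i : Option F₄) (c : F₈), g v = c • g (w id i) := by
    intro v
    rcases eq_or_ne v 0 with rfl | hv
    · exact ⟨none, 0, by rw [g0, zero_smul]⟩
    refine ⟨cl v, ?_⟩
    obtain ⟨c, hc0, hc⟩ := cl_spec hv
    set u : E₄ := w id (cl v) with hu
    have hu0 : u ≠ 0 := w_ne id _
    have h1 : M₀.ρ (Submodule.span F₂ {v, u}) = 1 := by
      change Module.finrank F₄ (Submodule.span F₄ _) = 1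
      have : Submodule.span F₄ ((Submodule.span F₂ {v, u} : Submodule F₂ E₄) : Set E₄) =
          Submodule.span F₄ {u} := by
        apply le_antisymm
        · rw [Submodule.span_le]
          have : Submodule.span F₂ {v, u} ≤ (Submodule.span F₄ {u}).restrictScalars F₂ := by
            rw [Submodule.span_le]
            rintro x (rfl | rfl)
            · exact Submodule.mem_span_singleton.2 ⟨c, hc.symm⟩
            · exact Submodule.mem_span_singleton_self _
          exact this
        · apply Submodule.span_mono
          intro x hx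
          rw [Set.mem_singleton_iff.1 hx]
          exact Submodule.subset_span (by simp)
      rw [this, finrank_span_singleton hu0]
    rw [hG] at h1
    change Module.finrank F₈ (Submodule.span F₈
      {x : Fin k → F₈ | ∃ v' ∈ Submodule.span F₂ {v, u}, x = g v'}) = 1 at h1
    have hgu : g u ∈ Submodule.span F₈
        {x : Fin k → F₈ | ∃ v' ∈ Submodule.span F₂ {v, u}, x = g v'} :=
      Submodule.subset_span ⟨u, Submodule.subset_span (by simp), rfl⟩
    have hgv : g v ∈ Submodule.span F₈
        {x : Fin k → F₈ | ∃ v' ∈ Submodule.span F₂ {v, u}, x = g v'} :=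
      Submodule.subset_span ⟨v, Submodule.subset_span (by simp), rfl⟩
    have hne : (⟨g u, hgu⟩ : Submodule.span F₈
        {x : Fin k → F₈ | ∃ v' ∈ Submodule.span F₂ {v, u}, x = g v'}) ≠ 0 := by
      intro h
      apply hu0
      apply ginj
      exact congrArg Subtype.val h
    obtain ⟨d, hd⟩ := exists_smul_eq_of_finrank_eq_one h1 hne ⟨g v, hgv⟩
    exact ⟨d, (congrArg Subtype.val hd).symm⟩
  -- the span of everything has 64 elements
  set W : Submodule F₈ (Fin k → F₈) := Submodule.span F₈
    {x : Fin k → F₈ | ∃ v' ∈ (⊤ : Submodule F₂ E₄), x = g v'} with hW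
  have hWr : Module.finrank F₈ W = 2 := by
    have := hG ⊤
    change Module.finrank F₄ (Submodule.span F₄ _) = Module.finrank F₈ W at this
    rw [← this]
    have htop : Submodule.span F₄ ((⊤ : Submodule F₂ E₄) : Set E₄) = ⊤ := by
      rw [Submodule.top_coe, Submodule.span_univ]
    rw [htop, finrank_top, Module.finrank_fin_fun]
  have hWc : Nat.card W = 64 := by
    rw [Module.natCard_eq_pow_finrank (K := F₈), hWr, card₈]
    norm_num
  have hgW : ∀ v, g v ∈ W := fun v => Submodule.subset_span ⟨v, trivial, rfl⟩
  -- a vector outside the five lines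
  obtain ⟨u, hu⟩ : ∃ u : W, ∀ (i : Option F₄) (c : F₈), (u : Fin k → F₈) ≠ c • g (w id i) := by
    by_contra hcon
    push Not at hcon
    let f : Option F₄ × F₈ → W := fun p => ⟨p.2 • g (w id p.1), W.smul_mem _ (hgW _)⟩
    have hf : Function.Surjective f := by
      intro u
      obtain ⟨i, c, h⟩ := hcon u
      exact ⟨(i, c), Subtype.ext h.symm⟩
    have h1 := Nat.card_le_card_of_surjective f hf
    rw [hWc, Nat.card_prod, Nat.card_eq_fintype_card (α := Option F₄), Fintype.card_option,
      ← Nat.card_eq_fintype_card, card₄, card₈] at h1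
    norm_num at h1
  let f : F₈ × E₄ → W := fun p => p.1 • u + ⟨g p.2, hgW _⟩
  have hf : Function.Injective f := by
    rintro ⟨c, v⟩ ⟨c', v'⟩ h
    have h1 : c • (u : Fin k → F₈) + g v = c' • (u : Fin k → F₈) + g v' :=
      congrArg Subtype.val h
    have h2 : (c - c') • (u : Fin k → F₈) = g (v' - v) := by
      rw [sub_smul, gsub]
      linear_combination (exp := 1) h1
    by_cases hc : c = c'
    · subst hc
      rw [sub_self, zero_smul] at h2
      have := ginj _ h2.symm
      rw [sub_eq_zero.1 this]
    · exfalso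
      obtain ⟨i, d, hd⟩ := hline (v' - v)
      rw [hd] at h2
      apply hu i ((c - c')⁻¹ * d)
      rw [mul_smul, ← h2, smul_smul, inv_mul_cancel₀ (sub_ne_zero.2 hc), one_smul]
  have h1 := Nat.card_le_card_of_injective f hf
  rw [hWc, Nat.card_prod, card₈, Nat.card_fun, card₄] at h1
  norm_num at h1

/-- **MP_4d2e3d_co, Q1 is false.**  There are a finite field `F = 𝔽_q`, a finite extension
`K = 𝔽_{q^m}` and a `q`-matroid (over `F`) whose projectivization is `K`-representable, but which
is not `K`-representable itself. -/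
theorem result : ¬ ∀ (F K E : Type) [Field F] [Finite F] [Field K] [Finite K] [Algebra F K]
    [AddCommGroup E] [Module F E] [Module.Finite F E] (M : QMatroid F E),
    M.ProjRepresentable K → M.Representable K := by
  intro h
  exact not_rep (h F₂ F₈ E₄ M₀ projRep)

end Pool.Agent.Results.MP_4d2e3d_co.Projectivization
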